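import Mathlib
import Pool.Agent.H616R3.WojMain

set_option autoImplicit false

/-! Wojcik's conjecture on the minimum density of union-closed families. -/

namespace Pool.Agent.Results.MP_24ae9b_co.Wojcik

open Finset

/-- A family of finite sets is union-closed. -/
def UnionClosed (F : Finset (Finset ℕ)) : Prop := ∀ A ∈ F, ∀ B ∈ F, A ∪ B ∈ F

/-- The ground set of a family: the union of its members. -/
def ground (F : Finset (Finset ℕ)) : Finset ℕ := F.biUnion id

/-- The density of a family: the sum of the sizes of the members, divided by the size of the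
ground set times the number of members. -/
def density (F : Finset (Finset ℕ)) : ℚ :=
  (∑ A ∈ F, (A.card : ℚ)) / (((ground F).card : ℚ) * (F.card : ℚ))

/-- The family of all subsets of a `k`-element set together with an `n`-element set containing
it. -/
def W (n k : ℕ) : Finset (Finset ℕ) := (range k).powerset ∪ {range n}

/-- `n` times the density of `W n k` (used in the proof only) -/
def h (n k : ℕ) : ℚ := ((k : ℚ) * 2 ^ k + 2 * n) / (2 * (2 ^ k + 1))

lemma sum_powerset (k : ℕ) : 2 * ∑ A ∈ (range k).powerset, (A.card : ℚ) = k * 2 ^ k := by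
  induction k with
  | zero => simp
  | succ k ih =>
    have h1 : range (k + 1) = insert k (range k) := by
      rw [range_add_one]
    rw [h1, sum_powerset_insert (by simp)]
    have h2 : ∑ t ∈ (range k).powerset, ((insert k t).card : ℚ) =
        ∑ t ∈ (range k).powerset, ((t.card : ℚ) + 1) := by
      apply sum_congr rfl
      intro t ht
      rw [card_insert_of_notMem]
      · push_cast; ring
      · intro hk
        have := mem_powerset.1 ht hk
        simp at this
    rw [h2, sum_add_distrib, sum_const, card_powerset, card_range]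
    simp only [nsmul_eq_mul, mul_one]
    push_cast
    rw [mul_add, mul_add, ih]
    ring

lemma ground_W (n k : ℕ) (hk : k ≤ n) : ground (W n k) = range n := by
  ext x
  simp only [ground, W, mem_biUnion, mem_union, mem_powerset, mem_singleton, id]
  constructor
  · rintro ⟨A, hA | rfl, hx⟩
    · have := hA hx
      rw [mem_range] at this ⊢
      omega
    · exact hx
  · intro hx
    exact ⟨range n, Or.inr rfl, hx⟩

lemma uc_W (n k : ℕ) (hk : k ≤ n) : UnionClosed (W n k) := by
  intro A hA B hB
  simp only [W, mem_union, mem_powerset, mem_singleton] at hA hB ⊢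
  have hkn : range k ⊆ range n := range_subset_range.2 hk
  rcases hA with hA | rfl <;> rcases hB with hB | rfl
  · left; exact union_subset hA hB
  · right; exact union_eq_right.2 (hA.trans hkn)
  · right; exact union_eq_left.2 (hB.trans hkn)
  · right; simp

lemma density_W (n k : ℕ) (hk : k < n) : density (W n k) = h n k / n := by
  have hdisj : Disjoint (range k).powerset {range n} := by
    rw [disjoint_singleton_right, mem_powerset]
    intro hsub
    have := hsub (mem_range.2 hk)
    simp at this
  have hcard : ((W n k).card : ℚ) = 2 ^ k + 1 := by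
    rw [W, card_union_of_disjoint hdisj, card_powerset, card_range, card_singleton]
    push_cast; ring
  have hsum : ∑ A ∈ W n k, (A.card : ℚ) = ((k : ℚ) * 2 ^ k + 2 * n) / 2 := by
    rw [W, sum_union hdisj, sum_singleton, card_range, ← sum_powerset k]
    ring
  rw [density, ground_W n k hk.le, hcard, hsum, card_range, h]
  rw [div_div, div_div]
  congr 1
  ring

lemma h_mono_up (n k : ℕ) (hk : n ≤ 2 ^ k) : h n k ≤ h n (k + 1) := by
  unfold h
  have hk' : (n : ℚ) ≤ 2 ^ k := by exact_mod_cast hk
  have hpos : (0 : ℚ) < 2 ^ k := by positivity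
  rw [div_le_div_iff₀ (by positivity) (by positivity), pow_succ]
  push_cast
  have hk0 : (0 : ℚ) ≤ k := Nat.cast_nonneg _
  generalize (2 : ℚ) ^ k = K at *
  nlinarith [mul_nonneg hpos.le (sub_nonneg.2 hk'), mul_nonneg hpos.le hk0]

lemma h_mono_down (n k : ℕ) (hk : 2 ^ (k + 1) ≤ n) : h n (k + 1) ≤ h n k := by
  unfold h
  have hk' : (2 : ℚ) ^ (k + 1) ≤ n := by exact_mod_cast hk
  have hpos : (0 : ℚ) < 2 ^ k := by positivity
  have hk1 : (k : ℚ) + 1 ≤ 2 ^ k := by exact_mod_cast Nat.lt_two_pow_self
  rw [pow_succ] at hk'
  rw [div_le_div_iff₀ (by positivity) (by positivity), pow_succ]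
  push_cast
  have hk0 : (0 : ℚ) ≤ k := Nat.cast_nonneg _
  generalize (2 : ℚ) ^ k = K at *
  nlinarith [mul_nonneg hpos.le (sub_nonneg.2 hk'), mul_nonneg hpos.le (sub_nonneg.2 hk1)]

lemma h_ge (n : ℕ) (hn : 1 ≤ n) (k : ℕ) :
    min (h n (Nat.log 2 n)) (h n (Nat.clog 2 n)) ≤ h n k := by
  rcases le_total k (Nat.log 2 n) with hk | hk
  · -- going down from k to log
    refine (min_le_left _ _).trans ?_
    have : ∀ j, k ≤ j → j ≤ Nat.log 2 n → h n j ≤ h n k := by
      intro j hj
      induction j, hj using Nat.le_induction with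
      | base => intro _; exact le_rfl
      | succ j hj ih =>
        intro hj'
        refine le_trans (h_mono_down n j ?_) (ih (by omega))
        calc 2 ^ (j + 1) ≤ 2 ^ Nat.log 2 n := Nat.pow_le_pow_right (by norm_num) hj'
          _ ≤ n := Nat.pow_log_le_self 2 (by omega)
    exact this _ hk le_rfl
  · rcases Nat.lt_or_ge k (Nat.clog 2 n) with hk2 | hk2
    · -- then k = log
      have : Nat.clog 2 n ≤ Nat.log 2 n + 1 := by
        apply Nat.clog_le_of_le_pow
        exact (Nat.lt_pow_succ_log_self (by norm_num) n).le
      have hk3 : k = Nat.log 2 n := by omega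
      rw [hk3]
      exact min_le_left _ _
    · refine (min_le_right _ _).trans ?_
      induction k, hk2 using Nat.le_induction with
      | base => exact le_rfl
      | succ k hk2 ih =>
        rcases le_total k (Nat.log 2 n) with h1 | h1
        · have h2 : Nat.clog 2 n ≤ Nat.log 2 n := hk2.trans h1
          have h3 : n ≤ 2 ^ Nat.clog 2 n := Nat.le_pow_clog (by norm_num) n
          have h4 : h n (Nat.clog 2 n) ≤ h n k := by
            have h5 : Nat.log 2 n ≤ Nat.clog 2 n := by
              exact Nat.log_le_clog 2 n
            have h6 : k = Nat.clog 2 n := by omega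
            rw [h6]
          refine h4.trans (h_mono_up n k (h3.trans (Nat.pow_le_pow_right (by norm_num) hk2)))
        · refine (ih h1).trans (h_mono_up n k ?_)
          exact (Nat.le_pow_clog (by norm_num) n).trans (Nat.pow_le_pow_right (by norm_num) hk2)

lemma ground_mem (F : Finset (Finset ℕ)) (hF : F.Nonempty) (hUC : UnionClosed F) :
    ground F ∈ F := by
  obtain ⟨M, hM, hmax⟩ := exists_max_image F card hF
  have : ground F = M := by
    apply Subset.antisymm
    · intro x hx
      simp only [ground, mem_biUnion, id] at hx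
      obtain ⟨A, hA, hx⟩ := hx
      have h1 := hmax (A ∪ M) (hUC A hA M hM)
      have h2 : M = A ∪ M := eq_of_subset_of_card_le subset_union_right h1
      rw [h2]
      exact mem_union_left _ hx
    · intro x hx
      simp only [ground, mem_biUnion, id]
      exact ⟨M, hM, hx⟩
  rw [this]; exact hM

/-- Wojcik's conjecture: for every `n ≥ 1` the minimum density of a union-closed family with an
`n`-element ground set is attained by `W n k` with `k` the floor or the ceiling of `log₂ n`. -/
theorem result (n : ℕ) (hn : 1 ≤ n) :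
    IsLeast {x : ℚ | ∃ F : Finset (Finset ℕ), F.Nonempty ∧ UnionClosed F ∧
        (ground F).card = n ∧ density F = x}
      (min (density (W n (Nat.log 2 n))) (density (W n (Nat.clog 2 n)))) := by
  have hlog : Nat.log 2 n < n := Nat.log_lt_self 2 (by omega)
  have hclog : Nat.clog 2 n < n := by
    have h1 : n ≤ 2 ^ (n - 1) := by
      have : n - 1 < 2 ^ (n - 1) := Nat.lt_two_pow_self
      omega
    have := Nat.clog_le_of_le_pow h1
    omega
  constructor
  · rcases min_choice (density (W n (Nat.log 2 n))) (density (W n (Nat.clog 2 n))) with h1 | h1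
    · rw [h1]
      exact ⟨W n (Nat.log 2 n), ⟨range n, by simp [W]⟩, uc_W n _ hlog.le,
        by rw [ground_W n _ hlog.le, card_range], rfl⟩
    · rw [h1]
      exact ⟨W n (Nat.clog 2 n), ⟨range n, by simp [W]⟩, uc_W n _ hclog.le,
        by rw [ground_W n _ hclog.le, card_range], rfl⟩
  · rintro x ⟨F, hF, hUC, hg, rfl⟩
    rw [density_W n _ hlog, density_W n _ hclog]
    obtain ⟨k', hk'⟩ := Pool.Agent.H616R3.main_bound (ground F) F hUC (by
      intro A hA x hx
      simp only [ground, mem_biUnion, id]
      exact ⟨A, hA, hx⟩) (ground_mem F hF hUC)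
    rw [hg] at hk'
    have hn0 : (0 : ℚ) < n := by exact_mod_cast hn
    have hFc : (0 : ℚ) < F.card := by exact_mod_cast card_pos.2 hF
    have h1 : h n k' / n ≤ density F := by
      rw [density, hg, h, div_div, div_le_div_iff₀ (by positivity) (by positivity)]
      have hk'' : ((k' : ℚ) * 2 ^ k' + 2 * n) * F.card ≤
          2 * (∑ A ∈ F, (A.card : ℚ)) * (2 ^ k' + 1) := by exact_mod_cast hk'
      calc ((k' : ℚ) * 2 ^ k' + 2 * n) * (n * F.card)
          = (((k' : ℚ) * 2 ^ k' + 2 * n) * F.card) * n := by ring
        _ ≤ (2 * (∑ A ∈ F, (A.card : ℚ)) * (2 ^ k' + 1)) * n := by gcongr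
        _ = _ := by ring
    refine le_trans ?_ h1
    have h2 := h_ge n hn k'
    have h3 : min (h n (Nat.log 2 n) / n) (h n (Nat.clog 2 n) / n) =
        min (h n (Nat.log 2 n)) (h n (Nat.clog 2 n)) / n := (min_div_div_right hn0.le _ _)
    rw [h3]
    gcongr

end Pool.Agent.Results.MP_24ae9b_co.Wojcik
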